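import Pool.Agent.AEC.StmtsB

/-!
# Squad AEC, row SIZ: extensions of prescribed size
-/

open FirstOrder FirstOrder.Language Cardinal Set

universe u

namespace Pool.Agent.AEC.H17

open Pool.Agent.AEC.AEC

/-- One step: a non-surjective extension of size at most `l`. -/
theorem siz_step {L : FirstOrder.Language.{u, u}} {κ : Cardinal.{u}} (K : AEC L κ)
    (A : K.Mod) (hA : ¬ AEC.IsMax A) (l : Cardinal.{u}) (hl : #A.α ≤ l) (hk : κ ≤ l) :
    ∃ (B : K.Mod) (f : K.Hom A B), #B.α ≤ l ∧ ¬ Function.Surjective f := by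
  have hinf : ℵ₀ ≤ l := K.aleph0_le.trans hk
  unfold AEC.IsMax at hA
  push Not at hA
  obtain ⟨A', f', hf'⟩ := hA
  have hx : ∃ x, ∀ a, f' a ≠ x := by
    by_contra hcon
    push Not at hcon
    exact hf' hcon
  obtain ⟨x, hx⟩ := hx
  obtain ⟨S, hS1, hS2, hS3⟩ := K.ls A'.prop (insert x (Set.range f'))
  have hfac : ∃ f : K.Hom A (sub A' S hS2), ∀ a, subHom A' S hS2 (f a) = f' a :=
    Hom.exists_factor f' (subHom A' S hS2) (fun a =>
      ⟨⟨f' a, hS1 (Set.mem_insert_of_mem _ ⟨a, rfl⟩)⟩, rfl⟩)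
  obtain ⟨f, hf⟩ := hfac
  refine ⟨sub A' S hS2, f, ?_, ?_⟩
  · have h1 : #(insert x (Set.range f') : Set A'.α) ≤ l := by
      refine (Cardinal.mk_insert_le).trans ?_
      have h2 : #(Set.range f') ≤ l := Cardinal.mk_range_le.trans hl
      exact Cardinal.add_le_of_le hinf h2 ((Cardinal.one_le_aleph0).trans hinf)
    exact hS3.trans (Cardinal.add_le_of_le hinf h1 hk)
  · intro hsurj
    obtain ⟨a, ha⟩ := hsurj ⟨x, hS1 (Set.mem_insert _ _)⟩
    have h3 := hf a
    rw [ha] at h3
    exact hx a h3.symm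

/-- **SIZ**. -/
theorem siz (trc : TrcStmt.{u}) (dlm : DlmStmt.{u}) (ccl : CclStmt.{u}) : SizStmt.{u} := by
  intro L κ K M hM l hl
  have hk : κ ≤ l := (self_le_add_left _ _).trans hl
  have hMl : #M.α ≤ l := (self_le_add_right _ _).trans hl
  have hinf : ℵ₀ ≤ l := K.aleph0_le.trans hk
  let J : Type u := l.ord.ToType
  have hJ : #J = l := by simp [J]
  have hJne : Nonempty J := by
    rw [← Cardinal.mk_ne_zero_iff, hJ]
    exact (Cardinal.aleph0_pos.trans_le hinf).ne'
  have hIio : ∀ j : J, #(Set.Iio j) ≤ l := fun j => (Cardinal.mk_Iio_ord_toType j).le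
  obtain ⟨F, m, b, hid, hcomp, hb, hQ, hR⟩ := trc L κ K M (fun A => #A.α ≤ l)
    (fun A B _ f => ¬ Function.Surjective f) J l hIio (ccl L κ K l hinf).1 hMl
    (fun A e hA => siz_step K A (hM A e) l hA hk)
  obtain ⟨G, s, hs, hcov⟩ := dlm L κ K J F m hid hcomp
  refine ⟨G, (s hJne.some).comp (b hJne.some), le_antisymm ?_ ?_⟩
  · have hsurj : Function.Surjective (fun p : (Σ j : J, (F j).α) => s p.1 p.2) := by
      intro y
      obtain ⟨i, x, hx⟩ := hcov y
      exact ⟨⟨i, x⟩, hx⟩
    refine (Cardinal.mk_le_of_surjective hsurj).trans ?_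
    rw [Cardinal.mk_sigma]
    refine (Cardinal.sum_le_sum _ (fun _ => l) hQ).trans ?_
    rw [Cardinal.sum_const', hJ]
    exact (Cardinal.mul_eq_self hinf).le
  · have hnm : ∀ i : J, ∃ j : J, i ⋖ j := by
      intro i
      haveI : NoMaxOrder J := Cardinal.noMaxOrder hinf
      letI : SuccOrder J := SuccOrder.ofLinearWellFoundedLT J
      exact ⟨Order.succ i, Order.covBy_succ i⟩
    choose j hj using hnm
    have hy : ∀ i : J, ∃ y : (F (j i)).α, ∀ x, m i (j i) (hj i).le x ≠ y := by
      intro i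
      by_contra hcon
      push Not at hcon
      exact hR i (j i) (hj i) hcon
    choose y hy using hy
    have hinj : Function.Injective (fun i : J => s (j i) (y i)) := by
      intro i i' h
      by_contra hne
      wlog hlt : i < i' generalizing i i' with H
      · exact H h.symm (Ne.symm hne) (lt_of_le_of_ne (not_lt.1 hlt) (Ne.symm hne))
      have h1 : j i ≤ i' := by
        by_contra h2
        exact (hj i).2 hlt (not_le.1 h2)
      have h2 : s (j i) (y i) = s (j i') (m i' (j i') (hj i').le (m (j i) i' h1 (y i))) := by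
        rw [hs, hs]
      have h3 : s (j i') (m i' (j i') (hj i').le (m (j i) i' h1 (y i))) = s (j i') (y i') := by
        rw [← h2]
        exact h
      exact hy i' _ ((s (j i')).injective h3)
    calc l = #J := hJ.symm
      _ ≤ #G.α := Cardinal.mk_le_of_injective hinj

end Pool.Agent.AEC.H17
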