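import Pool.Agent.AEC.StmtsS

/-!
# Squad AEC, row S_PAR: good points in all larger models
-/

set_option autoImplicit false

open FirstOrder FirstOrder.Language Cardinal Set

universe u

namespace Pool.Agent.AEC.S.H17

open Pool.Agent.AEC.AEC

variable {L : FirstOrder.Language.{u, u}} {κ : Cardinal.{u}}

/-- Factorization through a strong substructure. -/
theorem fac {K : AEC L κ} {X N : K.Mod} (g : K.Hom X N) (S : L.Substructure N.α)
    (h : K.emb S.subtype) (hr : ∀ x, g x ∈ S) :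
    ∃ g' : K.Hom X (sub N S h), ∀ x, subHom N S h (g' x) = g x :=
  Hom.exists_factor g (subHom N S h) fun x => ⟨⟨g x, hr x⟩, rfl⟩

/-- A strong substructure of cardinality `l` containing a given set and the range of a given
map. -/
theorem ext_sub {K : AEC L κ} (l : Cardinal.{u}) (hk : κ ≤ l) {X N : K.Mod} (g : K.Hom X N)
    (hX : #X.α = l) (A : Set N.α) (hA : #A ≤ l) :
    ∃ (S : L.Substructure N.α) (h : K.emb S.subtype), A ⊆ (S : Set N.α) ∧
      #(sub N S h).α = l ∧ ∃ g' : K.Hom X (sub N S h), ∀ x, subHom N S h (g' x) = g x := by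
  have hinf : ℵ₀ ≤ l := K.aleph0_le.trans hk
  obtain ⟨S, hS1, hS2, hS3⟩ := K.ls N.prop (A ∪ Set.range g)
  obtain ⟨g', hg'⟩ := fac g S hS2 fun x => hS1 (Or.inr ⟨x, rfl⟩)
  refine ⟨S, hS2, fun x hx => hS1 (Or.inl hx), le_antisymm ?_ ?_, g', hg'⟩
  · refine hS3.trans (Cardinal.add_le_of_le hinf ?_ hk)
    refine (Cardinal.mk_union_le _ _).trans (Cardinal.add_le_of_le hinf hA ?_)
    exact Cardinal.mk_range_le.trans hX.le
  · rw [← hX]
    exact Cardinal.mk_le_of_injective g'.injective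

/-- The range of `δ` is a component. -/
theorem cmp_delta [L.IsRelational] (τ : Tpl L κ) (wgr : WgrStmt.{u}) (hk : ℵ₀ ≤ κ)
    (T : Type u) (hT : κ < #T) (N : Type u) [L.Structure N] (g : W τ T ↪[L] N)
    (hsv : Sv L κ N = g '' Sv L κ (W τ T)) (δ : τ.A → N) (h1 : Function.Injective δ)
    (h3 : ∀ a, δ a ∉ Set.range g)
    (h4 : ∀ (n : ℕ) (R : L.Relations n) (v : Fin n → N), Structure.RelMap R v →
      (∃ i a, v i = δ a) → ∀ i, (∃ a, v i = δ a) ∨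
        ∃ s : {x : τ.P // x ∉ τ.A}, s.1 ∈ τ.B ∧ v i = g (W.lo s))
    (h5 : ∀ (n : ℕ) (R : L.Relations n) (v : Fin n → τ.P) (w : Fin n → N),
      (∀ i, (∃ h : v i ∈ τ.A, w i = δ ⟨v i, h⟩) ∨
        ∃ h : v i ∉ τ.A, v i ∈ τ.B ∧ w i = g (W.lo ⟨v i, h⟩)) →
      (Structure.RelMap R v ↔ Structure.RelMap R w)) (a : τ.A) :
    cmp L (Sv L κ N) (δ a) = Set.range δ := by
  classical
  ext z
  constructor
  · intro hz
    have hz' : Relation.ReflTransGen (fun a b : N => adj L a b ∧ b ∉ Sv L κ N) (δ a) z := hz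
    induction hz' with
    | refl => exact ⟨a, rfl⟩
    | @tail b c hab hbc ih =>
      obtain ⟨a', rfl⟩ := ih hab
      obtain ⟨⟨_, n, R, v, hv, ⟨i, hi⟩, ⟨j, hj⟩⟩, hc⟩ := hbc
      rcases h4 n R v hv ⟨i, a', hi⟩ j with ⟨a'', ha''⟩ | ⟨s, hs, hs'⟩
      · exact ⟨a'', ha''.symm.trans hj⟩
      · exfalso
        apply hc
        rw [hsv, ← hj, hs']
        exact ⟨W.lo s, ((wgr L κ τ T hk hT).1 (W.lo s)).2 ⟨rfl, hs⟩, rfl⟩
  · rintro ⟨b, rfl⟩
    have key : ∀ p q : τ.P, con L τ.Aᶜ p q → ∀ hp : p ∈ τ.A, ∃ hq : q ∈ τ.A,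
        con L (Sv L κ N) (δ ⟨p, hp⟩) (δ ⟨q, hq⟩) := by
      intro p q hpq hp
      have hpq' : Relation.ReflTransGen (fun a b : τ.P => adj L a b ∧ b ∉ τ.Aᶜ) p q := hpq
      clear hpq
      induction hpq' with
      | refl => exact ⟨hp, Relation.ReflTransGen.refl⟩
      | @tail b c _ hbc ih =>
        obtain ⟨hb, hpb⟩ := ih
        obtain ⟨⟨hne, n, R, v, hv, ⟨i, hi⟩, ⟨j, hj⟩⟩, hc⟩ := hbc
        have hcA : c ∈ τ.A := by
          by_contra h
          exact hc h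
        refine ⟨hcA, Relation.ReflTransGen.tail hpb ⟨⟨?_, n, R, ?_⟩, ?_⟩⟩
        · intro h
          exact hne (congrArg Subtype.val (h1 h))
        · let w : Fin n → N := fun k =>
            if h : v k ∈ τ.A then δ ⟨v k, h⟩ else g (W.lo ⟨v k, h⟩)
          have hw : ∀ k, (∃ h : v k ∈ τ.A, w k = δ ⟨v k, h⟩) ∨
              ∃ h : v k ∉ τ.A, v k ∈ τ.B ∧ w k = g (W.lo ⟨v k, h⟩) := by
            intro k
            by_cases h : v k ∈ τ.A
            · exact Or.inl ⟨h, dif_pos h⟩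
            · refine Or.inr ⟨h, ?_, dif_neg h⟩
              rcases τ.loc n R v hv ⟨i, by rw [hi]; exact hb⟩ k with h' | h'
              · exact absurd h' h
              · exact h'
          refine ⟨w, (h5 n R v w hw).1 hv, ⟨i, ?_⟩, ⟨j, ?_⟩⟩
          · have h : v i ∈ τ.A := by rw [hi]; exact hb
            change dite _ _ _ = _
            rw [dif_pos h]
            congr 1
            exact Subtype.ext hi
          · have h : v j ∈ τ.A := by rw [hj]; exact hcA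
            change dite _ _ _ = _
            rw [dif_pos h]
            congr 1
            exact Subtype.ext hj
        · rw [hsv]
          rintro ⟨x, _, hx⟩
          exact h3 _ ⟨x, hx⟩
    obtain ⟨_, h⟩ := key a.1 b.1 (τ.conn a.1 a.2 b.1 b.2) a.2
    exact h

/-- The member `W τ T`. -/
def WM [L.IsRelational] (K : AEC L κ) (τ : Tpl L κ) (hOK : τ.OK K) (T : Type u)
    (h : κ < #T) : K.Mod := ⟨W τ T, K.dom (hOK T T (Function.Embedding.refl T) h.le)⟩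

/-- The map from a part of `W τ T`. -/
theorem exists_map [L.IsRelational] {K : AEC L κ} {τ : Tpl L κ} (hOK : τ.OK K)
    {M N : K.Mod} (f : K.Hom M N) {T : Type u} (φ : W τ T ≃[L] M.α) (T' : Set T)
    (h : κ < #T') : ∃ g : K.Hom (WM K τ hOK T' h) N,
      ∀ x : W τ T', g x = f (φ (W.fn Subtype.val x)) := by
  have h1 : K.emb (W.emb (τ := τ) (Function.Embedding.subtype fun t => t ∈ T')) :=
    hOK T' T _ h.le
  have h2 : K.emb φ.toEmbedding := K.iso (K.cod h1) φ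
  exact ⟨⟨f.toEmb.comp (φ.toEmbedding.comp
    (W.emb (τ := τ) (Function.Embedding.subtype fun t => t ∈ T'))),
    K.comp (K.comp h1 h2) f.emb⟩, fun x => rfl⟩

theorem mk_W_le [L.IsRelational] (τ : Tpl L κ) (hk : ℵ₀ ≤ κ) (T : Type u) (hT : #T ≤ κ) :
    #(W τ T) ≤ κ := by
  have h1 : #(W τ T) = #{x : τ.P // x ∉ τ.A} + #(T × τ.A) := by
    unfold W
    rw [Cardinal.mk_sum, Cardinal.lift_id, Cardinal.lift_id]
  rw [h1]
  refine Cardinal.add_le_of_le hk ((Cardinal.mk_subtype_le _).trans τ.card) ?_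
  rw [Cardinal.mk_prod, Cardinal.lift_id, Cardinal.lift_id]
  exact (mul_le_mul' hT ((Cardinal.mk_set_le _).trans τ.card)).trans
    (Cardinal.mul_eq_self hk).le

/-- **S_PAR**. -/
theorem par (god : GodStmt.{u}) (frz : FrzStmt.{u}) (svc : SvcStmt.{u}) (wgr : WgrStmt.{u})
    (typ : TypStmt.{u}) : ParStmt.{u} := by
  intro L _ κ K τ l hHL M N f T φ hM y hy
  have hHL' := hHL
  obtain ⟨hOK, hκl, hcat⟩ := hHL'
  have hκl' : κ < l := Order.succ_le_iff.1 hκl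
  have hk0 : ℵ₀ ≤ κ := K.aleph0_le
  have hinf : ℵ₀ ≤ l := hk0.trans hκl'.le
  have hT : κ < #T := by
    by_contra hcon
    have h1 := mk_W_le τ hk0 T (not_lt.1 hcon)
    rw [Cardinal.mk_congr φ.toEquiv] at h1
    exact absurd (hM.trans h1) (not_le.2 hκl')
  have hTl : l ≤ #T := by
    rw [← (typ L κ K τ hOK).1 T hT, Cardinal.mk_congr φ.toEquiv]
    exact hM
  obtain ⟨T₁, hT₁⟩ := Cardinal.le_mk_iff_exists_set.1 hTl
  have hκT₁ : κ < #T₁ := by rw [hT₁]; exact hκl'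
  obtain ⟨g₁, hg₁⟩ := exists_map hOK f φ T₁ hκT₁
  have hX₁ : #(WM K τ hOK T₁ hκT₁).α = l := ((typ L κ K τ hOK).1 T₁ hκT₁).trans hT₁
  obtain ⟨S₁, hS₁, hyS₁, hcS₁, g₁', hg₁'⟩ := ext_sub l hκl'.le g₁ hX₁ {y}
    (by rw [Cardinal.mk_singleton]; exact Cardinal.one_le_aleph0.trans hinf)
  have hy₁ : y ∈ S₁ := hyS₁ rfl
  let y₁ : (sub N S₁ hS₁).α := (⟨y, hy₁⟩ : S₁)
  have hy₁g : y₁ ∉ Set.range g₁' := by
    rintro ⟨x, hx⟩
    apply hy
    have h1 := hg₁' x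
    rw [hx] at h1
    exact ⟨φ (W.fn Subtype.val x), (hg₁ x).symm.trans h1.symm⟩
  obtain ⟨δ, d1, ⟨a₀, ha₀⟩, d3, d4, d5⟩ := god L κ K τ l hHL (WM K τ hOK T₁ hκT₁)
    (sub N S₁ hS₁) g₁' T₁ (FirstOrder.Language.Equiv.refl L (W τ T₁)) hX₁ hcS₁ y₁ hy₁g
  have hsv₁ := svc L κ K τ l hHL _ _ g₁' hX₁ hcS₁
  have hcmp : ∀ a, cmp L (Sv L κ (sub N S₁ hS₁).α) (δ a) = Set.range δ :=
    cmp_delta τ wgr hk0 T₁ hκT₁ _ g₁'.toEmb hsv₁ δ d1 d3 d4 d5
  have hδsv : ∀ a, δ a ∉ Sv L κ (sub N S₁ hS₁).α := by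
    intro a h
    rw [hsv₁] at h
    obtain ⟨x, _, hx⟩ := h
    exact d3 a ⟨x, hx⟩
  -- extensions of `S₁`
  have hext : ∀ (A : Set N.α), #A ≤ l → ∃ (S : L.Substructure N.α) (h : K.emb S.subtype),
      A ⊆ (S : Set N.α) ∧ #(sub N S h).α = l ∧
        ∃ g' : K.Hom (sub N S₁ hS₁) (sub N S h),
          ∀ x, subHom N S h (g' x) = subHom N S₁ hS₁ x := fun A hA =>
    ext_sub l hκl'.le (subHom N S₁ hS₁) hcS₁ A hA
  refine ⟨fun a => subHom N S₁ hS₁ (δ a), fun a b h => d1 ((subHom N S₁ hS₁).injective h),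
    ⟨a₀, congrArg (subHom N S₁ hS₁) ha₀⟩, ?_, ?_, ?_⟩
  · -- (3)
    rintro a ⟨m, hm⟩
    obtain ⟨z, rfl⟩ := φ.surjective m
    have hm' : f (φ z) = subHom N S₁ hS₁ (δ a) := hm
    rcases z with p | ⟨t, b⟩
    · refine d3 a ⟨(Sum.inl p : W τ T₁), (subHom N S₁ hS₁).injective ?_⟩
      exact (hg₁' _).trans ((hg₁ _).trans hm')
    · let T₂ : Set T := insert t T₁
      have hT₂ : #T₂ = l := by
        refine le_antisymm ?_ ?_
        · refine Cardinal.mk_insert_le.trans ?_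
          rw [hT₁]
          exact Cardinal.add_le_of_le hinf le_rfl (Cardinal.one_le_aleph0.trans hinf)
        · rw [← hT₁]
          exact Cardinal.mk_le_mk_of_subset (Set.subset_insert t T₁)
      have hκT₂ : κ < #T₂ := by rw [hT₂]; exact hκl'
      obtain ⟨g₂, hg₂⟩ := exists_map hOK f φ T₂ hκT₂
      have hX₂ : #(WM K τ hOK T₂ hκT₂).α = l := ((typ L κ K τ hOK).1 T₂ hκT₂).trans hT₂
      obtain ⟨S₂, hS₂, hA₂, hcS₂, h₁, hh₁⟩ := hext (Set.range g₂)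
        (Cardinal.mk_range_le.trans hX₂.le)
      obtain ⟨g₂', hg₂'⟩ := fac g₂ S₂ hS₂ fun x => hA₂ ⟨x, rfl⟩
      have e1 := frz L κ K τ l hHL _ _ h₁ (δ a) hcS₁ hcS₂ (hδsv a)
      let x₂ : W τ T₂ := W.hi ⟨t, Set.mem_insert t T₁⟩ b
      have hx₂ : x₂ ∉ Sv L κ (W τ T₂) := by
        intro h
        have := (((wgr L κ τ T₂ hk0 hκT₂).1 x₂).1 h).1
        exact absurd this (by simp [x₂, W.hi, W.tag])
      have e2 := frz L κ K τ l hHL (WM K τ hOK T₂ hκT₂) _ g₂' x₂ hX₂ hcS₂ hx₂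
      have e3 : h₁ (δ a) = g₂' x₂ := by
        apply (subHom N S₂ hS₂).injective
        rw [hh₁, hg₂', hg₂]
        exact hm'.symm
      rw [hcmp, e3] at e1
      have e4 : h₁ y₁ ∈ h₁ '' Set.range δ := ⟨y₁, ⟨a₀, ha₀⟩, rfl⟩
      rw [← e1, e2] at e4
      obtain ⟨x, _, hx⟩ := e4
      apply hy
      refine ⟨φ (W.fn Subtype.val x), ?_⟩
      have e5 : subHom N S₂ hS₂ (g₂' x) = subHom N S₂ hS₂ (h₁ y₁) := by rw [hx]
      rw [hg₂', hg₂, hh₁] at e5
      exact e5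
  · -- (4)
    rintro n R v hv ⟨i, a, hia⟩ j
    obtain ⟨S₃, hS₃, hA₃, hcS₃, h₁, hh₁⟩ := hext (Set.range v) (by
      have h1 : (Set.range v).Finite := Set.finite_range v
      have h2 : Finite (Set.range v) := h1.to_subtype
      exact (Cardinal.mk_lt_aleph0 (α := Set.range v)).le.trans hinf)
    have e1 := frz L κ K τ l hHL _ _ h₁ (δ a) hcS₁ hcS₃ (hδsv a)
    rw [hcmp] at e1
    let v₃ : Fin n → (sub N S₃ hS₃).α := fun k => (⟨v k, hA₃ ⟨k, rfl⟩⟩ : S₃)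
    have hv₃ : Structure.RelMap R v₃ := (S₃.subtype.map_rel R v₃).1 hv
    have hv₃i : v₃ i = h₁ (δ a) := by
      apply (subHom N S₃ hS₃).injective
      rw [hh₁]
      exact hia
    by_cases hij : v₃ j = v₃ i
    · left
      refine ⟨a, ?_⟩
      have := congrArg (subHom N S₃ hS₃) hij
      exact this.trans hia
    · have hadj : adj L (h₁ (δ a)) (v₃ j) := by
        refine ⟨?_, n, R, v₃, hv₃, ⟨i, hv₃i⟩, ⟨j, rfl⟩⟩
        rw [← hv₃i]
        exact fun h => hij h.symm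
      by_cases hsv : v₃ j ∈ Sv L κ (sub N S₃ hS₃).α
      · right
        rw [svc L κ K τ l hHL _ _ h₁ hcS₁ hcS₃, hsv₁] at hsv
        obtain ⟨_, ⟨x, hx, rfl⟩, hx'⟩ := hsv
        obtain ⟨hx1, hx2⟩ := ((wgr L κ τ T₁ hk0 hκT₁).1 x).1 hx
        have e5 : subHom N S₃ hS₃ (h₁ (g₁' x)) = subHom N S₃ hS₃ (v₃ j) := by rw [hx']
        rw [hh₁, hg₁', hg₁] at e5
        rcases x with p | ⟨t, b⟩
        · exact ⟨p, hx2, e5.symm⟩
        · exact absurd hx1 (by simp [W.tag])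
      · left
        have h1 : v₃ j ∈ cmp L (Sv L κ (sub N S₃ hS₃).α) (h₁ (δ a)) :=
          Relation.ReflTransGen.single ⟨hadj, hsv⟩
        rw [e1] at h1
        obtain ⟨_, ⟨b, rfl⟩, hb⟩ := h1
        refine ⟨b, ?_⟩
        have e5 : subHom N S₃ hS₃ (h₁ (δ b)) = subHom N S₃ hS₃ (v₃ j) := by rw [hb]
        rw [hh₁] at e5
        exact e5.symm
  · -- (5)
    intro n R v w hw
    have hwS : ∀ i, w i ∈ S₁ := by
      intro i
      rcases hw i with ⟨h, hi⟩ | ⟨h, _, hi⟩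
      · rw [hi]
        exact (δ ⟨v i, h⟩ : S₁).2
      · have h1 := (hg₁' (W.lo ⟨v i, h⟩)).trans (hg₁ _)
        have h2 : w i = subHom N S₁ hS₁ (g₁' (W.lo ⟨v i, h⟩)) := hi.trans h1.symm
        rw [h2]
        exact (show S₁ from g₁' (W.lo ⟨v i, h⟩)).2
    let w' : Fin n → (sub N S₁ hS₁).α := fun i => (⟨w i, hwS i⟩ : S₁)
    have h1 := d5 n R v w' (by
      intro i
      rcases hw i with ⟨h, hi⟩ | ⟨h, hB, hi⟩
      · refine Or.inl ⟨h, (subHom N S₁ hS₁).injective ?_⟩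
        exact hi
      · refine Or.inr ⟨h, hB, (subHom N S₁ hS₁).injective ?_⟩
        exact hi.trans ((hg₁' (W.lo ⟨v i, h⟩)).trans (hg₁ _)).symm)
    exact h1.trans (S₁.subtype.map_rel R w').symm

end Pool.Agent.AEC.S.H17
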